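import Pool.Agent.Lib.MP_2cf74a_ag.TR.DimA
import Pool.Agent.Lib.MP_2cf74a_ag.TR.Elim

/-!
# Block elimination bounds every typical rank

Let `E` be the set of specified positions of an `m x n` pattern.  Start with a number `R` and all rows and columns.
Allowed step: delete a set of `s + 1` of the remaining rows (columns) such that at most `R` of the remaining columns
(rows) are completely specified on that set, and replace `R` by `R - s`.  If one can reach a situation
with at most `R` rows or at most `R` columns left (with the current `R`), then every typical rank of the pattern is
at most the initial number.  For `s = 0` in every step this is the known bound by the `k`-core.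

The definitions `Completes`, `complRank`, `Typical` are in `Pool.Agent.Lib.MP_2cf74a_ag.TR.Base`, the inductive
definition `Elim` is in `Pool.Agent.Lib.MP_2cf74a_ag.TR.Elim`.
-/

open Finset

namespace Pool.Agent.Results.MP_2cf74a_ag.BlockElimination

open Pool.MP_2cf74a

theorem result {m n : ℕ} (E : Finset (Fin m × Fin n)) {R : ℕ} (h : Elim E R univ univ) {r : ℕ}
    (hr : Typical E r) : r ≤ R :=
  typical_le_of_good (good_of_elim h) hr

end Pool.Agent.Results.MP_2cf74a_ag.BlockElimination
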