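import Pool.Agent.Lib.MP_2cf74a_ag.TR.Final

/-!
# Bipartite graphs with three typical ranks in real matrix completion

Let `E` be the set of specified positions of an `m x n` pattern (a bipartite graph with `m` row vertices and
`n` column vertices).  If `r` and `t ≥ r + 2` are typical ranks, in particular if there are three different typical
ranks and `r` is the smallest one, then

* `3 ≤ r`, `r + 4 ≤ min m n` and `2 r + 9 ≤ m + n`,
* there are at least nine rows and at least nine columns,
* there are at least `9 (r + 2)` specified and at least `(m - r)(n - r)` unspecified entries, so at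
  least `45` specified and at least `20` unspecified ones (`25` if `m = n`).

The definitions `Completes`, `complRank`, `Typical` are in `Pool.Agent.Lib.MP_2cf74a_ag.TR.Base`.
-/

open Finset

namespace Pool.Agent.Results.MP_2cf74a_ag.ThreeTypicalRanks

open Pool.MP_2cf74a

theorem result {m n : ℕ} (E : Finset (Fin m × Fin n)) {r t : ℕ} (hr : Typical E r)
    (ht : Typical E t) (hrt : r + 2 ≤ t) :
    (3 ≤ r ∧ r + 4 ≤ min m n ∧ 2 * r + 9 ≤ m + n) ∧ 9 ≤ min m n ∧
      9 * (r + 2) ≤ E.card ∧ E.card + (m - r) * (n - r) ≤ m * n := by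
  obtain ⟨h1, h2⟩ := corank_of_gap hr ht hrt
  obtain ⟨h3, h4⟩ := nine_of_gap hr ht hrt
  exact ⟨⟨three_of_gap hr ht hrt, le_min h1 h2, sum_of_gap hr ht hrt⟩, le_min h3 h4,
    specified_of_gap hr ht hrt, unspecified_of_gap hr ht hrt⟩

end Pool.Agent.Results.MP_2cf74a_ag.ThreeTypicalRanks
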